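import Pool.Agent.helper55.ZI.Spec2

set_option autoImplicit false

namespace Pool.Agent.helper11.ZI

open Pool.Agent.ZI

universe u

theorem SML (hSTP : STP_stmt.{u}) : SML_stmt.{u} := by
  intro R _ S hS T _ _ s₀ hP m s hseq k ν r hr y hy hy0 hsm
  obtain ⟨-, hm, -, hs⟩ := hseq
  obtain ⟨i₀, hi₀⟩ : ∃ i, y i ≠ 0 := by
    by_contra hcon
    push Not at hcon
    exact hy0 (funext hcon)
  have hri : r • s i₀.val ≠ 0 := by
    rw [← hy i₀]
    intro h
    exact hi₀ (Subtype.ext h)
  intro k' hk'
  induction k', hk' using Nat.le_induction with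
  | base =>
    intro y' hy'
    have e : y' = y := by
      funext i
      apply Subtype.ext
      rw [hy' i, hy i]
    rw [e]
    exact hsm
  | succ k' hk' ih =>
    intro y'' hy''
    obtain ⟨hmem, hmk, ι, g, hι, hG, hstep⟩ := hs k'
    have hr' : r ∈ S (m k') := hS (hm.monotone hk') hr
    have hsim : IsSimpleModule (S (m k')) (VV S s₀ (m k')) := hP.1 (m k')
    have hsim' : IsSimpleModule (S (m (k' + 1))) (VV S s₀ (m (k' + 1))) := hP.1 (m (k' + 1))
    set z : Fin (k' + 1) → VV S s₀ (m k') := fun i => ⟨s i.val, hmem i.val (Nat.lt_succ_iff.1 i.2)⟩ with hz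
    set ρ : S (m k') := ⟨r, hr'⟩ with hρ
    have h1 : ∀ i, ((ρ • z i : VV S s₀ (m k')) : T) = r • s i.val := by
      intro i
      rfl
    have h2 : (fun i => ρ • z i) ≠ (0 : Fin (k' + 1) → VV S s₀ (m k')) := by
      intro h
      have h3 := congrFun h (Fin.castLE (by omega) i₀)
      have h4 := congrArg (fun v : VV S s₀ (m k') => (v : T)) h3
      exact hri h4
    have h5 := ih (fun i => ρ • z i) h1
    have hinj : Function.Injective ι := by
      intro a b hab
      apply Subtype.ext
      rw [← hι a, ← hι b, hab]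
    have h6 := hSTP (S (m k')) (S (m (k' + 1))) (VV S s₀ (m k')) (VV S s₀ (m (k' + 1)))
      (rinc hS hmk) ι (k' + 1) g hinj hG (fun i => ρ • z i) ν h2 h5
    have e : (Fin.snoc (fun i => ι (ρ • z i)) (∑ i, g i (ρ • z i)) : Fin (k' + 1 + 1) → VV S s₀ (m (k' + 1))) = y'' := by
      funext i
      refine Fin.lastCases ?_ (fun i => ?_) i
      · rw [Fin.snoc_last]
        have e1 : ∑ i, g i (ρ • z i) = (rinc hS hmk ρ) • ∑ i, g i (z i) := by
          rw [Finset.smul_sum]
          refine Finset.sum_congr rfl fun i _ => ?_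
          rw [map_smulₛₗ]
        rw [e1]
        apply Subtype.ext
        rw [hy'']
        change r • ((∑ i, g i (z i) : VV S s₀ (m (k' + 1))) : T) = _
        rw [← hstep z (fun i => rfl)]
        rfl
      · rw [Fin.snoc_castSucc]
        apply Subtype.ext
        rw [hι, hy'']
        rfl
    rw [← e]
    exact h6

end Pool.Agent.helper11.ZI
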